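import Pool.Agent.W907.SM.Stmts

set_option autoImplicit false

/-!
# Exact sequences for line complexes (part SM-LADD, by helper215)
-/

namespace Pool.Agent.W215.SM.LAdd

open Pool.Agent.W907.SG Pool.Agent.W907.SM

section Bdd

variable {V M M' : Type} [Fintype V] [LinearOrder V] [AddCommGroup M] [AddCommGroup M']

theorem bdd_apply (c : Finset V → M) (T : Finset V) :
    bdd c T = ∑ v ∈ Tᶜ, sg v T • c (insert v T) := rfl

theorem bdd_bdd (c : Finset V → M) : bdd (bdd c) = 0 := by
  classical
  funext T
  rw [bdd_apply]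
  have h1 : ∀ v ∈ Tᶜ, sg v T • bdd c (insert v T)
      = ∑ u ∈ Tᶜ.erase v, (sg v T * sg u (insert v T)) • c (insert u (insert v T)) := by
    intro v hv
    rw [bdd_apply, Finset.smul_sum]
    have : (insert v T)ᶜ = Tᶜ.erase v := by
      ext u; simp
    rw [this]
    exact Finset.sum_congr rfl fun u _ => by rw [smul_smul]
  rw [Finset.sum_congr rfl h1]
  rw [Finset.sum_sigma']
  refine Finset.sum_involution (fun (x : Σ _ : V, V) _ => ⟨x.2, x.1⟩) ?_ ?_ ?_ ?_
  · rintro ⟨v, u⟩ h
    simp only [Finset.mem_sigma, Finset.mem_compl, Finset.mem_erase] at h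
    obtain ⟨hv, huv, hu⟩ := h
    simp only
    rw [Finset.insert_comm v u T, ← add_smul]
    have := sg_swap u v T huv hu hv
    have h0 : sg v T * sg u (insert v T) + sg u T * sg v (insert u T) = 0 := by
      rw [mul_comm (sg v T), this]; ring
    rw [h0, zero_smul]
  · rintro ⟨v, u⟩ h _ h3
    simp only [Finset.mem_sigma, Finset.mem_compl, Finset.mem_erase] at h
    simp only [Sigma.mk.injEq, heq_eq_eq] at h3
    exact h.2.1 h3.1
  · rintro ⟨v, u⟩ h
    simp only [Finset.mem_sigma, Finset.mem_compl, Finset.mem_erase] at h ⊢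
    exact ⟨h.2.2, fun e => h.2.1 e.symm, h.1⟩
  · rintro ⟨v, u⟩ _
    rfl

theorem bdd_add (c d : Finset V → M) : bdd (c + d) = bdd c + bdd d := by
  funext T
  simp only [bdd_apply, Pi.add_apply, smul_add, Finset.sum_add_distrib]

theorem bdd_neg (c : Finset V → M) : bdd (-c) = - bdd c := by
  funext T
  simp only [bdd_apply, Pi.neg_apply, smul_neg, Finset.sum_neg_distrib]

theorem bdd_sub (c d : Finset V → M) : bdd (c - d) = bdd c - bdd d := by
  rw [sub_eq_add_neg, sub_eq_add_neg, bdd_add, bdd_neg]

theorem bdd_map (f : M →+ M') (c : Finset V → M) :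
    bdd (fun T => f (c T)) = fun T => f (bdd c T) := by
  funext T
  simp only [bdd_apply, map_sum, map_zsmul]

/-- the component of the chains through `v` -/
def qq (v : V) (c : Finset V → M) : Finset V → M :=
  fun T => if v ∈ T then 0 else sg v T • c (insert v T)

/-- the cone over a chain -/
def kk (v : V) (w : Finset V → M) : Finset V → M :=
  fun T => if v ∈ T then sg v (T.erase v) • w (T.erase v) else 0

theorem qq_bdd (v : V) (c : Finset V → M) : qq v (bdd c) = - bdd (qq v c) := by
  funext T
  rw [Pi.neg_apply, bdd_apply]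
  by_cases hv : v ∈ T
  · rw [qq, if_pos hv, Finset.sum_eq_zero, neg_zero]
    intro u _
    rw [qq, if_pos (Finset.mem_insert_of_mem hv), smul_zero]
  · rw [qq, if_neg hv, bdd_apply, Finset.smul_sum, ← Finset.sum_neg_distrib]
    have h1 : (insert v T)ᶜ = Tᶜ.erase v := by
      ext u; simp
    rw [h1, ← Finset.sum_erase (s := Tᶜ) (a := v)
      (f := fun u => -(sg u T • qq v c (insert u T)))]
    · refine Finset.sum_congr rfl fun u hu => ?_
      rw [Finset.mem_erase, Finset.mem_compl] at hu
      have h2 : v ∉ insert u T := by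
        rw [Finset.mem_insert, not_or]
        exact ⟨fun e => hu.1 e.symm, hv⟩
      rw [qq, if_neg h2, smul_smul, smul_smul, Finset.insert_comm u v T, mul_comm (sg v T),
        sg_swap u v T hu.1 hu.2 hv, neg_smul, mul_comm]
    · rw [qq, if_pos (Finset.mem_insert_self v T), smul_zero, neg_zero]

theorem qq_kk (v : V) (w : Finset V → M) (hw : ∀ T, v ∈ T → w T = 0) : qq v (kk v w) = w := by
  funext T
  by_cases hv : v ∈ T
  · rw [qq, if_pos hv, hw T hv]
  · rw [qq, if_neg hv, kk, if_pos (Finset.mem_insert_self v T), Finset.erase_insert hv, smul_smul,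
      sg_mul_self, one_smul]

theorem eq_qq (v : V) (c : Finset V → M) (T : Finset V) (hv : v ∈ T) :
    c T = sg v (T.erase v) • qq v c (T.erase v) := by
  rw [qq, if_neg (Finset.notMem_erase v T), Finset.insert_erase hv, smul_smul, sg_mul_self,
    one_smul]

end Bdd

section LC

variable {V C R : Type} [Fintype V] [LinearOrder V] [DecidableEq C] [CommRing R]
  {G : SimpleGraph V} {col : V → C} {D : Set C} {τ : V → R} {A A' : Set V} {i : ℕ}
  {c d : Finset V → (C → Bool) → R}

omit [Fintype V] [LinearOrder V] in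
theorem add (h : IsLC G col D τ A i c) (h' : IsLC G col D τ A i d) :
    IsLC G col D τ A i (c + d) := by
  refine ⟨fun T hT => ?_, fun T t ht hD ε => ?_⟩
  · rw [Pi.add_apply, h.supp T hT, h'.supp T hT, add_zero]
  · rw [Pi.add_apply, Pi.add_apply, Pi.add_apply, h.line T t ht hD, h'.line T t ht hD, mul_add]

omit [Fintype V] [LinearOrder V] in
theorem neg (h : IsLC G col D τ A i c) : IsLC G col D τ A i (-c) := by
  refine ⟨fun T hT => ?_, fun T t ht hD ε => ?_⟩
  · rw [Pi.neg_apply, h.supp T hT, neg_zero]
  · rw [Pi.neg_apply, Pi.neg_apply, Pi.neg_apply, h.line T t ht hD, mul_neg]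

omit [Fintype V] [LinearOrder V] in
theorem sub (h : IsLC G col D τ A i c) (h' : IsLC G col D τ A i d) :
    IsLC G col D τ A i (c - d) := by
  rw [sub_eq_add_neg]
  exact add h (neg h')

omit [Fintype V] [LinearOrder V] in
theorem mono (h : IsLC G col D τ A i c) (hA : A ⊆ A') : IsLC G col D τ A' i c :=
  ⟨fun T hT => h.supp T fun h1 => hT ⟨h1.1, h1.2.1.trans hA, h1.2.2⟩, h.line⟩

theorem bddm (h : IsLC G col D τ A (i + 1) c) : IsLC G col D τ A i (bdd c) := by
  refine ⟨fun T hT => ?_, fun T t ht hD ε => ?_⟩
  · rw [bdd_apply]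
    refine Finset.sum_eq_zero fun v hv => ?_
    rw [h.supp (insert v T), smul_zero]
    rintro ⟨h3, h4, h5⟩
    apply hT
    refine ⟨h3.subset (by simp), fun x hx => h4 (by simp at hx ⊢; exact Or.inr hx), ?_⟩
    rw [Finset.card_insert_of_notMem (by simpa using hv)] at h5
    omega
  · rw [bdd_apply, Finset.sum_apply, Finset.sum_apply, Finset.mul_sum]
    refine Finset.sum_congr rfl fun v _ => ?_
    rw [Pi.smul_apply, Pi.smul_apply, h.line (insert v T) t (Finset.mem_insert_of_mem ht) hD,
      mul_smul_comm]

theorem qqm {v : V} (h : IsLC G col D τ (insert v A) (i + 1) c) :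
    IsLC G col D τ (A ∩ G.neighborSet v) i (qq v c) := by
  refine ⟨fun T hT => ?_, fun T t ht hD ε => ?_⟩
  · by_cases hv : v ∈ T
    · rw [qq, if_pos hv]
    · rw [qq, if_neg hv, h.supp (insert v T), smul_zero]
      rintro ⟨h3, h4, h5⟩
      apply hT
      refine ⟨h3.subset (by simp), fun x hx => ?_, ?_⟩
      · have hxv : x ≠ v := fun e => hv (by rw [← e]; exact hx)
        refine ⟨?_, ?_⟩
        · have := h4 (Finset.mem_coe.2 (Finset.mem_insert_of_mem (Finset.mem_coe.1 hx)))
          exact (Set.mem_insert_iff.1 this).resolve_left hxv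
        · exact h3 (Finset.mem_coe.2 (Finset.mem_insert_self v T))
            (Finset.mem_coe.2 (Finset.mem_insert_of_mem (Finset.mem_coe.1 hx))) hxv.symm
      · rw [Finset.card_insert_of_notMem hv] at h5
        omega
  · by_cases hv : v ∈ T
    · rw [qq, if_pos hv]
      simp
    · rw [qq, if_neg hv, Pi.smul_apply, Pi.smul_apply,
        h.line (insert v T) t (Finset.mem_insert_of_mem ht) hD, mul_smul_comm]

omit [Fintype V] in
theorem kkm {v : V} (h : IsLC G col D τ (A ∩ G.neighborSet v) i c)
    (hl : col v ∈ D → ∀ (T : Finset V) (ε : C → Bool),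
      c T (Function.update ε (col v) true) = τ v * c T (Function.update ε (col v) false)) :
    IsLC G col D τ (insert v A) (i + 1) (kk v c) := by
  refine ⟨fun T hT => ?_, fun T t ht hD ε => ?_⟩
  · by_cases hv : v ∈ T
    · rw [kk, if_pos hv, h.supp (T.erase v), smul_zero]
      rintro ⟨h3, h4, h5⟩
      apply hT
      refine ⟨?_, fun x hx => ?_, ?_⟩
      · intro x hx y hy hxy
        by_cases hxv : x = v
        · subst hxv
          exact (h4 (Finset.mem_coe.2 (Finset.mem_erase.2 ⟨hxy.symm, Finset.mem_coe.1 hy⟩))).2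
        · by_cases hyv : y = v
          · subst hyv
            exact (h4 (Finset.mem_coe.2 (Finset.mem_erase.2 ⟨hxv, Finset.mem_coe.1 hx⟩))).2.symm
          · exact h3 (Finset.mem_coe.2 (Finset.mem_erase.2 ⟨hxv, Finset.mem_coe.1 hx⟩))
              (Finset.mem_coe.2 (Finset.mem_erase.2 ⟨hyv, Finset.mem_coe.1 hy⟩)) hxy
      · by_cases hxv : x = v
        · exact Set.mem_insert_iff.2 (Or.inl hxv)
        · exact Set.mem_insert_of_mem _
            (h4 (Finset.mem_coe.2 (Finset.mem_erase.2 ⟨hxv, Finset.mem_coe.1 hx⟩))).1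
      · rw [← h5, Finset.card_erase_add_one hv]
    · rw [kk, if_neg hv]
  · by_cases hv : v ∈ T
    · rw [kk, if_pos hv, Pi.smul_apply, Pi.smul_apply]
      by_cases htv : t = v
      · subst htv
        rw [hl hD, mul_smul_comm]
      · rw [h.line (T.erase v) t (Finset.mem_erase.2 ⟨htv, ht⟩) hD, mul_smul_comm]
    · rw [kk, if_neg hv]
      simp

theorem off {v : V} (h : IsLC G col D τ (insert v A) i c) (hq : qq v c = 0) :
    IsLC G col D τ A i c := by
  refine ⟨fun T hT => ?_, h.line⟩
  by_cases hv : v ∈ T
  · rw [eq_qq v c T hv, hq, Pi.zero_apply, smul_zero]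
  · refine h.supp T fun h1 => hT ⟨h1.1, fun x hx => ?_, h1.2.2⟩
    have hxv : x ≠ v := fun e => hv (by rw [← e]; exact hx)
    exact (Set.mem_insert_iff.1 (h1.2.1 hx)).resolve_left hxv

omit [Fintype V] [LinearOrder V] in
theorem offv {v : V} (h : IsLC G col D τ (A ∩ G.neighborSet v) i c) (T : Finset V) (hv : v ∈ T) :
    c T = 0 := by
  refine h.supp T fun h1 => ?_
  exact G.loopless.irrefl v (h1.2.1 (Finset.mem_coe.2 hv)).2

/-- the projection to the line of slope `t` in the colour `k` -/
def PP (k : C) (t : R) : ((C → Bool) → R) →+ ((C → Bool) → R) where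
  toFun a := fun ε => (if ε k then t else 1) * a (Function.update ε k false)
  map_zero' := by
    funext ε
    simp
  map_add' a b := by
    funext ε
    simp [mul_add]

omit [Fintype V] [LinearOrder V] in
theorem PP_apply (k : C) (t : R) (a : (C → Bool) → R) (ε : C → Bool) :
    PP k t a ε = (if ε k then t else 1) * a (Function.update ε k false) := rfl

/-- primitives with the line condition at `v` -/
theorem exists_w {v : V} (hcol : ∀ u w, G.Adj u w → col u ≠ col w)
    (hE : EX G col D τ (A ∩ G.neighborSet v) i) {z : Finset V → (C → Bool) → R}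
    (hz : IsLC G col D τ (insert v A) (i + 1) z) (hbz : bdd z = 0) :
    ∃ w : Finset V → (C → Bool) → R, IsLC G col D τ (A ∩ G.neighborSet v) (i + 1) w ∧
      bdd w = qq v z ∧ (col v ∈ D → ∀ (T : Finset V) (ε : C → Bool),
        w T (Function.update ε (col v) true) = τ v * w T (Function.update ε (col v) false)) := by
  obtain ⟨w, hw, hbw⟩ := hE (qq v z) (qqm hz) (by
    have h1 := qq_bdd v z
    rw [hbz] at h1
    have h2 : qq v (0 : Finset V → (C → Bool) → R) = 0 := by
      funext T
      simp [qq]
    rw [h2] at h1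
    rw [← neg_eq_zero, ← h1])
  by_cases hD : col v ∈ D
  · refine ⟨fun T => PP (col v) (τ v) (w T), ⟨fun T hT => ?_, fun T t ht htD ε => ?_⟩, ?_,
      fun _ T ε => ?_⟩
    · show PP (col v) (τ v) (w T) = 0
      rw [hw.supp T hT, map_zero]
    · show PP (col v) (τ v) (w T) _ = τ t * PP (col v) (τ v) (w T) _
      by_cases h0 : w T = 0
      · rw [h0, map_zero]
        simp
      · have h1 : (↑T : Set V) ⊆ A ∩ G.neighborSet v := by
          by_contra hno
          exact h0 (hw.supp T fun h2 => hno h2.2.1)
        have h2 : col v ≠ col t := hcol _ _ (h1 (Finset.mem_coe.2 ht)).2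
        rw [PP_apply, PP_apply, Function.update_of_ne h2, Function.update_of_ne h2,
          Function.update_comm h2.symm, Function.update_comm h2.symm, hw.line T t ht htD]
        ring
    · rw [bdd_map, hbw]
      funext T ε
      show PP (col v) (τ v) (qq v z T) ε = qq v z T ε
      rw [PP_apply]
      by_cases hv : v ∈ T
      · rw [qq, if_pos hv]
        simp
      · rw [qq, if_neg hv, Pi.smul_apply, Pi.smul_apply]
        cases h3 : ε (col v)
        · have h4 : Function.update ε (col v) false = ε := by
            rw [← h3, Function.update_eq_self]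
          rw [h4]
          simp
        · have h4 : Function.update ε (col v) true = ε := by
            rw [← h3, Function.update_eq_self]
          have h5 := hz.line (insert v T) v (Finset.mem_insert_self v T) hD ε
          rw [h4] at h5
          rw [h5]
          simp
          ring
    · show PP (col v) (τ v) (w T) _ = τ v * PP (col v) (τ v) (w T) _
      rw [PP_apply, PP_apply, Function.update_self, Function.update_self, Function.update_idem,
        Function.update_idem]
      simp
  · exact ⟨w, hw, hbw, fun h => absurd h hD⟩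

end LC

theorem surj : M_SURJ := by
  intro V C R _ _ _ _ G col D τ A v i hcol hvA hE z hz hbz
  obtain ⟨w, hw, hbw, hl⟩ := exists_w hcol hE hz hbz
  have hk := kkm hw hl
  refine ⟨- kk v w, z - bdd (- kk v w), neg hk, ?_, by abel⟩
  refine off (v := v) (sub hz (bddm (neg hk))) ?_
  have h1 : qq v (z - bdd (- kk v w)) = qq v z - qq v (bdd (- kk v w)) := by
    funext T
    rw [Pi.sub_apply]
    by_cases hv : v ∈ T
    · simp [qq, hv]
    · simp [qq, hv, smul_sub]
  have h2 : qq v (- kk v w) = - qq v (kk v w) := by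
    funext T
    rw [Pi.neg_apply]
    by_cases hv : v ∈ T
    · simp [qq, hv]
    · simp [qq, hv]
  rw [h1, qq_bdd, h2, qq_kk v w (fun T hT => offv hw T hT), bdd_neg, neg_neg, hbw, sub_self]

theorem ladd : M_LADD := by
  intro V C R _ _ _ _ G col D τ A v i hcol hvA hE hE' z hz hbz
  cases i with
  | zero =>
    have hz' : IsLC G col D τ A 0 z := by
      refine ⟨fun T hT => ?_, hz.line⟩
      refine hz.supp T fun h1 => hT ⟨h1.1, ?_, h1.2.2⟩
      rw [Finset.card_eq_zero.1 h1.2.2]
      simp
    obtain ⟨y, hy, hby⟩ := hE z hz' hbz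
    exact ⟨y, mono hy (Set.subset_insert v A), hby⟩
  | succ j =>
    obtain ⟨y, z', hy, hz', he⟩ := surj V C R G col D τ A v j hcol hvA (hE' j rfl) z hz hbz
    have hbz' : bdd z' = 0 := by
      rw [he, bdd_add, bdd_bdd, zero_add] at hbz
      exact hbz
    obtain ⟨y', hy', hby'⟩ := hE z' hz' hbz'
    exact ⟨y + y', add hy (mono hy' (Set.subset_insert v A)), by rw [bdd_add, hby', he]⟩

theorem ldel : M_LDEL := by
  intro V C R _ _ _ _ G col D τ A v i hvA hvD hE hE' z hz hbz
  obtain ⟨y, hy, hby⟩ := hE z (mono hz (Set.subset_insert v A)) hbz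
  have hqz : qq v z = 0 := by
    funext T
    by_cases hv : v ∈ T
    · rw [qq, if_pos hv]; rfl
    · rw [qq, if_neg hv, hz.supp (insert v T), smul_zero]
      · rfl
      · intro h1
        exact hvA (h1.2.1 (Finset.mem_coe.2 (Finset.mem_insert_self v T)))
  obtain ⟨w, hw, hbw⟩ := hE' (qq v y) (qqm hy) (by
    have h1 := qq_bdd v y
    rw [hby, hqz] at h1
    rw [← neg_eq_zero, ← h1])
  have hk := kkm hw (fun h => absurd h hvD)
  refine ⟨y + bdd (kk v w), off (v := v) (add hy (bddm hk)) ?_, ?_⟩
  · have h1 : qq v (y + bdd (kk v w)) = qq v y + qq v (bdd (kk v w)) := by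
      funext T
      rw [Pi.add_apply]
      by_cases hv : v ∈ T
      · simp [qq, hv]
      · simp [qq, hv, smul_add]
    rw [h1, qq_bdd, qq_kk v w (fun T hT => offv hw T hT), hbw, add_neg_cancel]
  · rw [bdd_add, bdd_bdd, add_zero, hby]

theorem join : M_JOIN := by
  intro V C R _ _ _ _ G col D τ A B hcol hAB hA
  classical
  induction hn : B.ncard using Nat.strong_induction_on generalizing B with
  | _ n ih =>
    intro i
    rcases B.eq_empty_or_nonempty with rfl | ⟨b, hb⟩
    · rw [Set.union_empty]
      exact hA i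
    · have hB : B = insert b (B \ {b}) := by
        rw [Set.insert_sdiff_singleton, Set.insert_eq_of_mem hb]
      have hbA : b ∉ A := fun h => G.loopless.irrefl b (hAB b h b hb)
      have hAB' : A ∪ B = insert b (A ∪ (B \ {b})) := by
        rw [← Set.union_insert, ← hB]
      have hlt : (B \ {b}).ncard < n := by
        rw [← hn]
        exact Set.ncard_sdiff_singleton_lt_of_mem hb (Set.toFinite B)
      rw [hAB']
      refine ladd V C R G col D τ _ b i hcol ?_ ?_ ?_
      · rintro (h | h)
        · exact hbA h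
        · exact h.2 rfl
      · exact ih _ hlt (B \ {b}) (fun a ha x hx => hAB a ha x hx.1) rfl i
      · intro j _
        have h1 : (A ∪ (B \ {b})) ∩ G.neighborSet b = A ∪ ((B \ {b}) ∩ G.neighborSet b) := by
          rw [Set.union_inter_distrib_right]
          congr 1
          rw [Set.inter_eq_left]
          intro a ha
          exact (hAB a ha b hb).symm
        rw [h1]
        refine ih _ ?_ ((B \ {b}) ∩ G.neighborSet b) (fun a ha x hx => hAB a ha x hx.1.1) rfl j
        exact lt_of_le_of_lt (Set.ncard_le_ncard Set.inter_subset_left (Set.toFinite _)) hlt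

end Pool.Agent.W215.SM.LAdd
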